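import Pool.Agent.Lib_helper36.SRC.AllGood

set_option autoImplicit false

/-! # MP_80a94d_pr, Q1: for every finite tree (more generally, for every finite forest) the number of
sources of a random orientation has a unimodal distribution

`prob G j` is the probability that exactly `j` vertices of `G` have in-degree zero when every edge
is oriented independently, each direction with probability one half (`Lib_helper19.Src.Main`).

Outline of the proof. Put `y = X - 1`. The cone `InW ν` (`WCone`) consists of the power series
`∑ w a * X ^ a * exp ((ν - a) y)` with all `w a ≥ 0`. It is convex, the product of a member for `ν`
and a member for `ν'` is a member for `ν + ν'`, `1 + s y` is a member for `ν = s` if `s ≤ 1`, and a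
member for a larger `ν` is one for a smaller `ν`. The coefficients of a member for `ν` increase up
to the index `ν` (`InW.coeff_mono`); the probabilities `prob G j` decrease from the mean on, for
every graph (`upper_half`). So it is enough that the generating function of a forest is a member
for its mean, and by the product rule it is enough to do this for trees.

The generating function of a rooted tree `T`, whose vertices may also carry half-edges, is
`A T = B T + 2 t y N T`, where `2 t` is the weight `2 ^ (-degree)` of the root, and `B T`, `N T`
belong to `T` without its root, and without its root and the neighbours of the root (`RT`). If the
roots of `U` and `W` are joined by an edge, the generating function is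
`J U W = (A U * B W + B U * A W) / 2`. By induction on the number of vertices (`Scheme`) one needs
`J U W` at a vertex of depth two: case I, a centre of a star heavier than its neighbour; case II, a
lighter centre of a star next to a vertex with a leaf; case III, a vertex all of whose neighbours
but one are lighter centres of stars. In each case `J U W` is written as a nonnegative combination
of products of members known by induction and of explicit series, for instance
`∏ (1 + s i * y) + w y` with `0 ≤ s i ≤ 1 / 2` and `0 ≤ w ≤ 2 ^ (-number of factors)`
(`star_lemma`). In case III the stars are first replaced by stars without half-edges (`Scheme2`,
`Scheme3`), and the weights of the roots of `U` and `W` are compared (`IIIADone`, `IIIBDone`).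

The lower half in the sharper form `μ * prob G j ≤ (j + 1) * prob G (j + 1)` for `j + 1 ≤ μ`, where
`μ` is the mean, is `lower_half_forest` in `Forest`. -/

namespace Pool.Agent.Results.MP_80a94d_pr.AllTrees

open Pool.Agent.Lib_helper19.Src (prob Unimodal)
open Pool.Agent.Lib_helper36.SRC

theorem result (V : Type) [Fintype V] (G : SimpleGraph V) (hG : G.IsAcyclic) :
    Unimodal (Fintype.card V) (prob G) := by
  classical
  exact unimodal_forest good_all G hG

end Pool.Agent.Results.MP_80a94d_pr.AllTrees
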