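import Pool.Agent.Lib_helper36.SRC.Mean

set_option autoImplicit false

/-! # MP_80a94d_pr: for every finite graph (in particular every tree) the distribution of the number
of sources of a random orientation is non-increasing above its mean -/

namespace Pool.Agent.Results.MP_80a94d_pr.DecreasingAboveMean

open Pool.Agent.Lib_helper19.Src (prob)
open Pool.Agent.Lib_helper36.SRC

theorem result (V : Type) [Fintype V] (G : SimpleGraph V) [DecidableRel G.Adj] (μ : ℝ)
    (hμ : μ = ∑ v, (1 / 2 : ℝ) ^ G.degree v) :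
    ∑ j ∈ Finset.range (Fintype.card V + 1), (j : ℝ) * prob G j = μ ∧
    ∀ j : ℕ, μ ≤ j →
      ((j : ℝ) + 1) * prob G (j + 1) ≤ μ * prob G j ∧ prob G (j + 1) ≤ prob G j := by
  classical
  have hw : ∑ v, wt G v = μ := by
    rw [hμ]
    apply Finset.sum_congr rfl
    intro v _
    exact congrArg (fun i : Fintype (G.neighborSet v) => (1 / 2 : ℝ) ^ @SimpleGraph.degree V G v i)
      (Subsingleton.elim _ _)
  refine ⟨by rw [mean_eq, hw], fun j hj => ?_⟩
  have h1 : ((j : ℝ) + 1) * prob G (j + 1) ≤ μ * prob G j := by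
    have := upper_half G j (by rw [hw]; exact hj)
    rwa [hw] at this
  refine ⟨h1, ?_⟩
  have h2 : μ * prob G j ≤ (j : ℝ) * prob G j := mul_le_mul_of_nonneg_right hj (prob_nonneg G j)
  have h3 : (0 : ℝ) ≤ j := Nat.cast_nonneg j
  have h4 := prob_nonneg G j
  have h5 : ((j : ℝ) + 1) * prob G (j + 1) ≤ ((j : ℝ) + 1) * prob G j := by linarith
  exact le_of_mul_le_mul_left h5 (by linarith)

end Pool.Agent.Results.MP_80a94d_pr.DecreasingAboveMean
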